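import Pool.Agent.Helper83.FL.MpFib
import Pool.Agent.Helper88.FL.Htpy
import Pool.Agent.Helper85.FL.FL3

/-!
# FL-4: the exact statements
-/

open CategoryTheory MonoidalCategory Simplicial Opposite HomotopicalAlgebra

set_option autoImplicit false

namespace Pool.Agent.Helper83.FL4

open FL

theorem deps : Deps where
  comp_right := fun {_ _ _} hX hY hZ {_ _} hg hfg => Pool.Agent.Helper88.FL.hoEq_of_comp_right hX hY hZ hg hfg
  we_iff_lift := fun {_ _} i _ => Helper85FL.we_iff_lift i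
  we_of_lift := fun {_ _} i _ h => Helper85FL.we_of_lift i h

variable {A : Type} [SmallCategory A]

theorem Mp_kan (X : SP A) {Z : SP A} (hZ : InjFib Z) : SSet.KanComplex (Mp X Z) :=
  Mp_kan_of deps X hZ

theorem Mp_pre_kanFib {X Y Z : SP A} (i : X ⟶ Y) (hi : ∀ a, Mono (i.app a)) (hZ : InjFib Z) :
    KanFib (Mp.pre i Z) :=
  Mp_pre_kanFib_of deps i hi hZ

theorem Mp_pre_trivFib {X Y Z : SP A} (i : X ⟶ Y) (hi : TrivCof i) (hZ : InjFib Z) :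
    TrivFib (Mp.pre i Z) :=
  Mp_pre_trivFib_of deps i hi hZ

theorem Mp_post_kanFib (X : SP A) {Z Z' : SP A} (q : Z ⟶ Z') (hq : InjFibration q) :
    KanFib (Mp.post X q) :=
  Mp_post_kanFib_of deps X q hq

/-- The relative lifting property. -/
theorem rel_lift {X Y Z Z' : SP A} (i : X ⟶ Y) (hi : ∀ a, Mono (i.app a)) (q : Z ⟶ Z')
    (hq : InjFibration q) (hZ : InjFib Z) (hZ' : InjFib Z') (h : HoEq (Mp.pre i Z))
    (h' : HoEq (Mp.pre i Z')) {K L : SSet.{0}} (j : K ⟶ L) [Mono j] (u : tn X L ⟶ Z)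
    (v : tn Y K ⟶ Z) (w : tn Y L ⟶ Z') (huv : tnMap (𝟙 X) j ≫ u = tnMap i (𝟙 K) ≫ v)
    (huw : u ≫ q = tnMap i (𝟙 L) ≫ w) (hvw : v ≫ q = tnMap (𝟙 Y) j ≫ w) :
    ∃ l : tn Y L ⟶ Z, tnMap i (𝟙 L) ≫ l = u ∧ tnMap (𝟙 Y) j ≫ l = v ∧ l ≫ q = w :=
  rel_lift_of deps i hi q hq hZ hZ' h h' j u v w huv huw hvw

end Pool.Agent.Helper83.FL4
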