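import Pool.Agent.Helper45.FL.Triv

/-!
# FL-4: mapping spaces into injectively fibrant simplicial presheaves

The statements of section FL-4, with the statements of FL-1 and FL-3 they use collected in the
structure `Deps`.
-/

open CategoryTheory MonoidalCategory Simplicial Opposite HomotopicalAlgebra

set_option autoImplicit false

namespace Pool.Agent.Helper83.FL4

open FL Pool.Agent.Helper45.FL2

/-- The three statements of FL-1 and FL-3 used below. -/
structure Deps : Prop where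
  comp_right : ∀ {X Y Z : SSet.{0}}, SSet.KanComplex X → SSet.KanComplex Y →
    SSet.KanComplex Z → ∀ {f : X ⟶ Y} {g : Y ⟶ Z}, HoEq g → HoEq (f ≫ g) → HoEq f
  we_iff_lift : ∀ {X Y : SSet.{0}} (i : X ⟶ Y) [Mono i],
    WE i ↔ ∀ {E B : SSet.{0}} (p : E ⟶ B), SSet.KanComplex E → SSet.KanComplex B → KanFib p →
      HasLiftingProperty i p
  we_of_lift : ∀ {X Y : SSet.{0}} (i : X ⟶ Y) [Mono i],
    (∀ {E B : SSet.{0}} (p : E ⟶ B), KanFib p → HasLiftingProperty i p) → WE i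

section Fibrations

open SSet.modelCategoryQuillen

lemma kanFib_iff {E B : SSet.{0}} (p : E ⟶ B) : KanFib p ↔ Fibration p := by
  constructor
  · intro h
    rw [fibration_iff]
    intro _ _ _ hj
    simp only [J, MorphismProperty.iSup_iff] at hj
    obtain ⟨n, ⟨i⟩⟩ := hj
    exact h n i
  · intro h n i
    infer_instance

lemma kan_of_lift {E : SSet.{0}} (h : ∀ (n : ℕ) (i : Fin (n + 2)) (f : (Λ[n + 1, i] : SSet.{0}) ⟶ E),
    ∃ g : Δ[n + 1] ⟶ E, Λ[n + 1, i].ι ≫ g = f) : SSet.KanComplex E := by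
  refine (isFibrant_iff _).2 ?_
  rw [fibration_iff]
  intro _ _ _ hj
  simp only [J, MorphismProperty.iSup_iff] at hj
  obtain ⟨n, ⟨i⟩⟩ := hj
  refine ⟨fun {t _} _ ↦ ?_⟩
  obtain ⟨g, hg⟩ := h n i t
  exact ⟨⟨{ l := g, fac_left := hg, fac_right := Limits.terminal.hom_ext _ _ }⟩⟩

lemma kan_of_kanFib {E B : SSet.{0}} {p : E ⟶ B} (hp : KanFib p) (hB : SSet.KanComplex B) :
    SSet.KanComplex E := by
  have := (kanFib_iff p).1 hp
  exact isFibrant_of_fibration p

lemma we_of_anodyne (D : Deps) {X Y : SSet.{0}} (i : X ⟶ Y) [Mono i] (h : SSet.anodyneExtensions i) :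
    WE i :=
  D.we_of_lift i fun p hp => h p ((kanFib_iff p).1 hp).mem

/-- The pushout-product of a monomorphism which is a weak equivalence and a monomorphism is a weak
equivalence. -/
lemma we_unionProd (D : Deps) {X Y : SSet.{0}} (S : X.Subcomplex) (T : Y.Subcomplex)
    (hS : ∀ {E B : SSet.{0}} (p : E ⟶ B), SSet.KanComplex E → SSet.KanComplex B → KanFib p →
      HasLiftingProperty S.ι p) : WE (S.unionProd T).ι := by
  rw [D.we_iff_lift]
  intro E B p hE hB hp
  have hp' := (kanFib_iff p).1 hp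
  let sq₁₂ := SSet.Subcomplex.unionProd.pushoutObjObj S T
  change HasLiftingProperty sq₁₂.ι p
  rw [HasLiftingProperty.iff_of_arrow_iso_left
    (show Arrow.mk sq₁₂.ι ≅ Arrow.mk sq₁₂.flipTensor.ι from
      Arrow.isoMk (Iso.refl _) (β_ _ _))]
  let sq₁₃ := Functor.PullbackObjObj.ofHasPullback MonoidalClosed.internalHom T.ι p
  rw [MonoidalClosed.internalHomAdjunction₂.hasLiftingProperty_iff _ sq₁₃]
  have h1 : Fibration sq₁₃.π := SSet.fibration_pullbackObjObjπ sq₁₃
  have h2 : SSet.KanComplex ((ihom (Y : SSet)).obj E) := inferInstance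
  have h3 : SSet.KanComplex ((ihom (T : SSet)).obj E) := inferInstance
  have h4 : Fibration ((MonoidalClosed.pre T.ι).app B) := inferInstance
  have h6 : (fibrations SSet.{0}).IsStableUnderBaseChange := by
    rw [fibrations_eq]
    infer_instance
  have h5 : fibrations SSet.{0} sq₁₃.fst :=
    MorphismProperty.of_isPullback sq₁₃.isPullback.flip h4.mem
  refine hS _ h2 ?_ ((kanFib_iff _).2 h1)
  have h7 : Fibration sq₁₃.fst := ⟨h5⟩
  exact kan_of_kanFib ((kanFib_iff _).2 h7) h3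

end Fibrations

section

variable {A : Type} [SmallCategory A]

/-- The pushout-product `X ⊗ L ∪ Y ⊗ K` as a subpresheaf of `Y ⊗ L`. -/
def PP {X Y : SP A} (i : X ⟶ Y) {K L : SSet.{0}} (j : K ⟶ L) : SP A where
  obj a := ((SSet.Subcomplex.range (i.app a)).unionProd (SSet.Subcomplex.range j) : SSet)
  map {a b} f :=
    { app := fun k => ↾ fun z => ⟨(((Y.map f).app k z.1.1 : (Y.obj b).obj k), z.1.2), by
        refine (SSet.Subcomplex.mem_unionProd_iff _ _ _).2 ?_
        have hz := (SSet.Subcomplex.mem_unionProd_iff _ _ _).1 z.2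
        rcases hz with hz | ⟨x, hx⟩
        · exact Or.inl hz
        · refine Or.inr ⟨(X.map f).app k x, (hom_nat i f x).trans ?_⟩
          exact congrArg ((Y.map f).app k) hx⟩
      naturality := fun k l α => by
        ext z
        refine Subtype.ext (Prod.ext ?_ rfl)
        exact sp_nat Y f α _ }
  map_id a := by
    ext k z
    refine Subtype.ext (Prod.ext ?_ rfl)
    exact sp_id Y _
  map_comp f g := by
    ext k z
    refine Subtype.ext (Prod.ext ?_ rfl)
    exact sp_comp Y f g _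

/-- The inclusion of the pushout-product. -/
def PPι {X Y : SP A} (i : X ⟶ Y) {K L : SSet.{0}} (j : K ⟶ L) : PP i j ⟶ tn Y L where
  app a := ((SSet.Subcomplex.range (i.app a)).unionProd (SSet.Subcomplex.range j)).ι
  naturality _ _ _ := rfl

/-- The map `X ⊗ L ⟶ P`. -/
def PPl {X Y : SP A} (i : X ⟶ Y) {K L : SSet.{0}} (j : K ⟶ L) : tn X L ⟶ PP i j where
  app a :=
    { app := fun k => ↾ fun (z : (X.obj a).obj k × L.obj k) => ⟨((i.app a).app k z.1, z.2), by
        exact (SSet.Subcomplex.mem_unionProd_iff _ _ _).2 (Or.inr ⟨z.1, rfl⟩)⟩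
      naturality := fun k l α => by
        ext z
        refine Subtype.ext (Prod.ext ?_ rfl)
        exact hom_natk i α _ }
  naturality a b f := by
    ext k z
    refine Subtype.ext (Prod.ext ?_ rfl)
    exact hom_nat i f _

/-- The map `Y ⊗ K ⟶ P`. -/
def PPr {X Y : SP A} (i : X ⟶ Y) {K L : SSet.{0}} (j : K ⟶ L) : tn Y K ⟶ PP i j where
  app a :=
    { app := fun k => ↾ fun (z : (Y.obj a).obj k × K.obj k) => ⟨(z.1, j.app k z.2), by
        exact (SSet.Subcomplex.mem_unionProd_iff _ _ _).2 (Or.inl ⟨z.2, rfl⟩)⟩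
      naturality := fun k l α => by
        ext z
        refine Subtype.ext (Prod.ext rfl ?_)
        exact sset_nat j α _ }
  naturality _ _ _ := rfl

lemma PPl_ι {X Y : SP A} (i : X ⟶ Y) {K L : SSet.{0}} (j : K ⟶ L) :
    PPl i j ≫ PPι i j = tnMap i (𝟙 L) := rfl

lemma PPr_ι {X Y : SP A} (i : X ⟶ Y) {K L : SSet.{0}} (j : K ⟶ L) :
    PPr i j ≫ PPι i j = tnMap (𝟙 Y) j := rfl

lemma PP_cases {X Y : SP A} (i : X ⟶ Y) {K L : SSet.{0}} (j : K ⟶ L) {a : Aᵒᵖ}
    {k : SimplexCategoryᵒᵖ} (z : ((PP i j).obj a).obj k) :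
    (∃ (x : (X.obj a).obj k) (l : L.obj k), ((PPl i j).app a).app k (x, l) = z) ∨
    (∃ (y : (Y.obj a).obj k) (t : K.obj k), ((PPr i j).app a).app k (y, t) = z) := by
  obtain ⟨⟨y, l⟩, hz⟩ := z
  rcases (SSet.Subcomplex.mem_unionProd_iff _ _ _).1 hz with ⟨t, ht⟩ | ⟨x, hx⟩
  · exact Or.inr ⟨y, t, Subtype.ext (Prod.ext rfl ht)⟩
  · exact Or.inl ⟨x, l, Subtype.ext (Prod.ext hx rfl)⟩

lemma app_inj {X Y : SP A} {i : X ⟶ Y} (hi : ∀ a, Mono (i.app a)) {a : Aᵒᵖ}
    {k : SimplexCategoryᵒᵖ} : Function.Injective ((i.app a).app k) := by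
  have := hi a
  have h : Mono ((i.app a).app k) := inferInstance
  exact (mono_iff_injective _).1 h

lemma j_inj {K L : SSet.{0}} (j : K ⟶ L) [Mono j] {k : SimplexCategoryᵒᵖ} :
    Function.Injective (j.app k) := by
  have h : Mono (j.app k) := inferInstance
  exact (mono_iff_injective _).1 h

/-- Maps out of the pushout-product. -/
lemma exists_PPdesc {X Y Z : SP A} (i : X ⟶ Y) (hi : ∀ a, Mono (i.app a)) {K L : SSet.{0}}
    (j : K ⟶ L) [Mono j] (u : tn X L ⟶ Z) (v : tn Y K ⟶ Z)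
    (huv : tnMap (𝟙 X) j ≫ u = tnMap i (𝟙 K) ≫ v) :
    ∃ f : PP i j ⟶ Z, PPl i j ≫ f = u ∧ PPr i j ≫ f = v := by
  classical
  have huv' : ∀ (a : Aᵒᵖ) (k : SimplexCategoryᵒᵖ) (x : (X.obj a).obj k) (t : K.obj k),
      (u.app a).app k (x, j.app k t) = (v.app a).app k ((i.app a).app k x, t) := fun a k x t =>
    congrArg (fun (g : tn X K ⟶ Z) => (g.app a).app k (x, t)) huv
  have key : ∀ (a : Aᵒᵖ) (k : SimplexCategoryᵒᵖ) (z : ((PP i j).obj a).obj k),
      ∃ w : (Z.obj a).obj k,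
        (∀ (x : (X.obj a).obj k) (l : L.obj k), ((PPl i j).app a).app k (x, l) = z →
          (u.app a).app k (x, l) = w) ∧
        (∀ (y : (Y.obj a).obj k) (t : K.obj k), ((PPr i j).app a).app k (y, t) = z →
          (v.app a).app k (y, t) = w) := by
    intro a k z
    rcases PP_cases i j z with ⟨x, l, rfl⟩ | ⟨y, t, rfl⟩
    · refine ⟨(u.app a).app k (x, l), fun x' l' h => ?_, fun y t h => ?_⟩
      · have h1 := congrArg (fun z => z.1.1) h
        have h2 := congrArg (fun z => z.1.2) h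
        have h3 : x' = x := app_inj hi h1
        have h4 : l' = l := h2
        rw [h3, h4]
      · have h1 : y = (i.app a).app k x := congrArg (fun z => z.1.1) h
        have h2 : j.app k t = l := congrArg (fun z => z.1.2) h
        rw [h1, ← h2]
        exact (huv' a k x t).symm
    · refine ⟨(v.app a).app k (y, t), fun x l h => ?_, fun y' t' h => ?_⟩
      · have h1 : (i.app a).app k x = y := congrArg (fun z => z.1.1) h
        have h2 : l = j.app k t := congrArg (fun z => z.1.2) h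
        rw [← h1, h2]
        exact huv' a k x t
      · have h1 : y' = y := congrArg (fun z => z.1.1) h
        have h2 : j.app k t' = j.app k t := congrArg (fun z => z.1.2) h
        rw [h1, j_inj j h2]
  choose F hF1 hF2 using key
  refine ⟨{ app := fun a => { app := fun k => ↾ (F a k), naturality := ?_ }, naturality := ?_ },
    ?_, ?_⟩
  · intro k l α
    ext z
    show F a l (((PP i j).obj a).map α z) = (Z.obj a).map α (F a k z)
    rcases PP_cases i j z with ⟨x, y, h⟩ | ⟨y, t, h⟩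
    · refine Eq.trans ?_ (congrArg ((Z.obj a).map α) (hF1 a k _ x y h))
      refine Eq.trans ?_ (hom_natk u α (x, y))
      refine (hF1 a l _ ((X.obj a).map α x) (L.map α y) ?_).symm
      exact (sset_nat ((PPl i j).app a) α (x, y)).trans (congrArg _ h)
    · refine Eq.trans ?_ (congrArg ((Z.obj a).map α) (hF2 a k _ y t h))
      refine Eq.trans ?_ (hom_natk v α (y, t))
      refine (hF2 a l _ ((Y.obj a).map α y) (K.map α t) ?_).symm
      exact (sset_nat ((PPr i j).app a) α (y, t)).trans (congrArg _ h)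
  · intro a b f
    ext k z
    show F b k (((PP i j).map f).app k z) = (Z.map f).app k (F a k z)
    rcases PP_cases i j z with ⟨x, y, h⟩ | ⟨y, t, h⟩
    · refine Eq.trans ?_ (congrArg ((Z.map f).app k) (hF1 a k _ x y h))
      refine Eq.trans ?_ (hom_nat u f (x, y))
      refine (hF1 b k _ ((X.map f).app k x) y ?_).symm
      exact (hom_nat (PPl i j) f (x, y)).trans (congrArg _ h)
    · refine Eq.trans ?_ (congrArg ((Z.map f).app k) (hF2 a k _ y t h))
      refine Eq.trans ?_ (hom_nat v f (y, t))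
      refine (hF2 b k _ ((Y.map f).app k y) t ?_).symm
      exact (hom_nat (PPr i j) f (y, t)).trans (congrArg _ h)
  · ext a k ⟨x, l⟩
    exact (hF1 a k _ x l rfl).symm
  · ext a k ⟨y, t⟩
    exact (hF2 a k _ y t rfl).symm

lemma PPι_trivCof_of_anodyne (D : Deps) {X Y : SP A} (i : X ⟶ Y) {K L : SSet.{0}} (j : K ⟶ L) [Mono j]
    (hj : SSet.anodyneExtensions j) : TrivCof (PPι i j) := by
  refine ⟨fun a => ?_, fun a => ?_⟩
  · show Mono ((SSet.Subcomplex.range (i.app a)).unionProd (SSet.Subcomplex.range j)).ι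
    infer_instance
  · show WE ((SSet.Subcomplex.range (i.app a)).unionProd (SSet.Subcomplex.range j)).ι
    refine we_of_anodyne D _ (SSet.anodyneExtensions_unionProd_ι _ _ ?_)
    refine (SSet.anodyneExtensions.arrow_mk_iso_iff ?_).1 hj
    exact Arrow.isoMk (asIso (SSet.Subcomplex.toRange j)) (Iso.refl _) rfl

lemma PPι_trivCof (D : Deps) {X Y : SP A} (i : X ⟶ Y) (hi : TrivCof i) {K L : SSet.{0}} (j : K ⟶ L) [Mono j] :
    TrivCof (PPι i j) := by
  refine ⟨fun a => ?_, fun a => ?_⟩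
  · show Mono ((SSet.Subcomplex.range (i.app a)).unionProd (SSet.Subcomplex.range j)).ι
    infer_instance
  · show WE ((SSet.Subcomplex.range (i.app a)).unionProd (SSet.Subcomplex.range j)).ι
    refine we_unionProd D _ _ fun {E B} p hE hB hp => ?_
    have := hi.1 a
    have h := (D.we_iff_lift (i.app a)).1 (hi.2 a) p hE hB hp
    refine (HasLiftingProperty.iff_of_arrow_iso_left (e := ?_) p).1 h
    exact Arrow.isoMk (asIso (SSet.Subcomplex.toRange (i.app a))) (Iso.refl _) rfl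

/-- The extension property for the pushout-product. -/
lemma exists_ext {X Y Z : SP A} (i : X ⟶ Y) (hi : ∀ a, Mono (i.app a)) {K L : SSet.{0}}
    (j : K ⟶ L) [Mono j] (hP : TrivCof (PPι i j)) (hZ : InjFib Z) (u : tn X L ⟶ Z)
    (v : tn Y K ⟶ Z) (huv : tnMap (𝟙 X) j ≫ u = tnMap i (𝟙 K) ≫ v) :
    ∃ l : tn Y L ⟶ Z, tnMap i (𝟙 L) ≫ l = u ∧ tnMap (𝟙 Y) j ≫ l = v := by
  obtain ⟨f, hf1, hf2⟩ := exists_PPdesc i hi j u v huv
  obtain ⟨l, hl⟩ := hZ (PPι i j) hP f
  refine ⟨l, ?_, ?_⟩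
  · rw [← PPl_ι i j, Category.assoc, hl, hf1]
  · rw [← PPr_ι i j, Category.assoc, hl, hf2]

lemma PP_hom_ext {X Y Z : SP A} (i : X ⟶ Y) {K L : SSet.{0}} (j : K ⟶ L) (f g : PP i j ⟶ Z)
    (h1 : PPl i j ≫ f = PPl i j ≫ g) (h2 : PPr i j ≫ f = PPr i j ≫ g) : f = g := by
  ext a k z
  rcases PP_cases i j z with ⟨x, y, h⟩ | ⟨y, t, h⟩
  · subst h
    exact congrArg (fun (g : tn X L ⟶ Z) => (g.app a).app k (x, y)) h1
  · subst h
    exact congrArg (fun (g : tn Y K ⟶ Z) => (g.app a).app k (y, t)) h2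

/-- The relative extension property for the pushout-product. -/
lemma exists_rel_ext {X Y Z Z' : SP A} (i : X ⟶ Y) (hi : ∀ a, Mono (i.app a)) {K L : SSet.{0}}
    (j : K ⟶ L) [Mono j] (hP : TrivCof (PPι i j)) (q : Z ⟶ Z') (hq : InjFibration q)
    (u : tn X L ⟶ Z) (v : tn Y K ⟶ Z) (w : tn Y L ⟶ Z')
    (huv : tnMap (𝟙 X) j ≫ u = tnMap i (𝟙 K) ≫ v)
    (huw : u ≫ q = tnMap i (𝟙 L) ≫ w) (hvw : v ≫ q = tnMap (𝟙 Y) j ≫ w) :
    ∃ l : tn Y L ⟶ Z, tnMap i (𝟙 L) ≫ l = u ∧ tnMap (𝟙 Y) j ≫ l = v ∧ l ≫ q = w := by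
  obtain ⟨f, hf1, hf2⟩ := exists_PPdesc i hi j u v huv
  have h := hq (PPι i j) hP
  have sq : CommSq f (PPι i j) q w := ⟨by
    refine PP_hom_ext i j _ _ ?_ ?_
    · rw [← Category.assoc, hf1, ← Category.assoc, PPl_ι, huw]
    · rw [← Category.assoc, hf2, ← Category.assoc, PPr_ι, hvw]⟩
  refine ⟨sq.lift, ?_, ?_, sq.fac_right⟩
  · rw [← PPl_ι i j, Category.assoc, sq.fac_left, hf1]
  · rw [← PPr_ι i j, Category.assoc, sq.fac_left, hf2]

lemma horn_anodyne (n : ℕ) (i : Fin (n + 2)) :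
    SSet.anodyneExtensions (Λ[n + 1, i].ι : (Λ[n + 1, i] : SSet.{0}) ⟶ _) :=
  SSet.anodyneExtensions.horn_ι i

lemma lift_pre {X Y Z : SP A} (i : X ⟶ Y) (hi : ∀ a, Mono (i.app a)) {K L : SSet.{0}}
    (j : K ⟶ L) [Mono j] (hP : TrivCof (PPι i j)) (hZ : InjFib Z) :
    HasLiftingProperty j (Mp.pre i Z) := by
  refine ⟨fun {f g} sq => ?_⟩
  obtain ⟨l, hl1, hl2⟩ := exists_ext i hi j hP hZ (Mp.adj g) (Mp.adj f)
    (congrArg Mp.adj sq.w).symm
  refine ⟨⟨{ l := Mp.adj.symm l, fac_left := ?_, fac_right := ?_ }⟩⟩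
  · apply Mp.adj.injective
    exact (Mp.adj_comp j (Mp.adj.symm l)).trans
      ((congrArg (tnMap (𝟙 Y) j ≫ ·) (Mp.adj.apply_symm_apply l)).trans hl2)
  · apply Mp.adj.injective
    exact (Mp.adj_pre i (Mp.adj.symm l)).trans
      ((congrArg (tnMap i (𝟙 L) ≫ ·) (Mp.adj.apply_symm_apply l)).trans hl1)

theorem Mp_pre_kanFib_of (D : Deps) {X Y Z : SP A} (i : X ⟶ Y) (hi : ∀ a, Mono (i.app a)) (hZ : InjFib Z) :
    KanFib (Mp.pre i Z) := fun n k =>
  lift_pre i hi _ (PPι_trivCof_of_anodyne D i _ (horn_anodyne n k)) hZ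

theorem Mp_pre_trivFib_of (D : Deps) {X Y Z : SP A} (i : X ⟶ Y) (hi : TrivCof i) (hZ : InjFib Z) :
    TrivFib (Mp.pre i Z) := fun _ =>
  lift_pre i hi.1 _ (PPι_trivCof D i hi _) hZ

lemma tnMap_trivCof (D : Deps) (X : SP A) {K L : SSet.{0}} (j : K ⟶ L) [Mono j]
    (hj : SSet.anodyneExtensions j) : TrivCof (tnMap (𝟙 X) j) := by
  have hm : ∀ a, Mono ((tnMap (𝟙 X) j).app a) := fun a => by
    have h : ∀ k, Mono (((tnMap (𝟙 X) j).app a).app k) := fun k => by
      refine (mono_iff_injective _).2 ?_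
      rintro ⟨x, y⟩ ⟨x', y'⟩ h
      have h1 : x = x' := congrArg Prod.fst h
      have h2 : j.app k y = j.app k y' := congrArg Prod.snd h
      rw [h1, j_inj j h2]
    exact NatTrans.mono_of_mono_app _
  refine ⟨hm, fun a => ?_⟩
  have := hm a
  refine we_of_anodyne D _ ?_
  exact hj.whiskerLeft (X.obj a)

theorem Mp_kan_of (D : Deps) (X : SP A) {Z : SP A} (hZ : InjFib Z) : SSet.KanComplex (Mp X Z) := by
  refine kan_of_lift fun n k f => ?_
  obtain ⟨l, hl⟩ := hZ _ (tnMap_trivCof D X _ (horn_anodyne n k)) (Mp.adj f)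
  refine ⟨Mp.adj.symm l, ?_⟩
  apply Mp.adj.injective
  exact (Mp.adj_comp _ (Mp.adj.symm l)).trans
      ((congrArg (tnMap (𝟙 X) Λ[n + 1, k].ι ≫ ·) (Mp.adj.apply_symm_apply l)).trans hl)

theorem Mp_post_kanFib_of (D : Deps) (X : SP A) {Z Z' : SP A} (q : Z ⟶ Z') (hq : InjFibration q) :
    KanFib (Mp.post X q) := by
  intro n k
  refine ⟨fun {f g} sq => ?_⟩
  have h := hq _ (tnMap_trivCof D X _ (horn_anodyne n k))
  have sq' : CommSq (Mp.adj f) (tnMap (𝟙 X) Λ[n + 1, k].ι) q (Mp.adj g) :=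
    ⟨congrArg Mp.adj sq.w⟩
  refine ⟨⟨{ l := Mp.adj.symm sq'.lift, fac_left := ?_, fac_right := ?_ }⟩⟩
  · apply Mp.adj.injective
    exact (Mp.adj_comp _ (Mp.adj.symm sq'.lift)).trans
      ((congrArg (tnMap (𝟙 X) Λ[n + 1, k].ι ≫ ·) (Mp.adj.apply_symm_apply sq'.lift)).trans
        sq'.fac_left)
  · apply Mp.adj.injective
    exact (Mp.adj_post q (Mp.adj.symm sq'.lift)).trans
      ((congrArg (· ≫ q) (Mp.adj.apply_symm_apply sq'.lift)).trans sq'.fac_right)

/-- The relative lifting property. -/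
theorem rel_lift_of (D : Deps) {X Y Z Z' : SP A} (i : X ⟶ Y) (hi : ∀ a, Mono (i.app a)) (q : Z ⟶ Z')
    (hq : InjFibration q) (hZ : InjFib Z) (hZ' : InjFib Z') (h : HoEq (Mp.pre i Z))
    (h' : HoEq (Mp.pre i Z')) {K L : SSet.{0}} (j : K ⟶ L) [Mono j] (u : tn X L ⟶ Z)
    (v : tn Y K ⟶ Z) (w : tn Y L ⟶ Z') (huv : tnMap (𝟙 X) j ≫ u = tnMap i (𝟙 K) ≫ v)
    (huw : u ≫ q = tnMap i (𝟙 L) ≫ w) (hvw : v ≫ q = tnMap (𝟙 Y) j ≫ w) :
    ∃ l : tn Y L ⟶ Z, tnMap i (𝟙 L) ≫ l = u ∧ tnMap (𝟙 Y) j ≫ l = v ∧ l ≫ q = w := by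
  let φ : Mp Y Z ⟶ Limits.pullback (Mp.post X q) (Mp.pre i Z') :=
    Limits.pullback.lift (Mp.pre i Z) (Mp.post Y q) rfl
  have hφ1 : φ ≫ Limits.pullback.fst _ _ = Mp.pre i Z := Limits.pullback.lift_fst _ _ _
  have hφ2 : φ ≫ Limits.pullback.snd _ _ = Mp.post Y q := Limits.pullback.lift_snd _ _ _
  have kXZ : SSet.KanComplex (Mp X Z) := Mp_kan_of D X hZ
  have kXZ' : SSet.KanComplex (Mp X Z') := Mp_kan_of D X hZ'
  have kYZ : SSet.KanComplex (Mp Y Z) := Mp_kan_of D Y hZ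
  have kYZ' : SSet.KanComplex (Mp Y Z') := Mp_kan_of D Y hZ'
  have h1 : TrivFib (Mp.pre i Z') := trivFib_of_hoEq kYZ' kXZ' (Mp_pre_kanFib_of D i hi hZ') h'
  have h2 : TrivFib (Limits.pullback.fst (Mp.post X q) (Mp.pre i Z')) := fun n => by
    have := h1 n
    infer_instance
  have kP : SSet.KanComplex (Limits.pullback (Mp.post X q) (Mp.pre i Z')) :=
    kan_of_kanFib (TrivFib.kanFib h2) kXZ
  have h3 : HoEq φ := by
    refine D.comp_right kYZ kP kXZ (TrivFib.hoEq h2) ?_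
    rw [hφ1]
    exact h
  have key : ∀ {K L : SSet.{0}} (j : K ⟶ L) [Mono j] (f : K ⟶ Mp Y Z)
      (g : L ⟶ Limits.pullback (Mp.post X q) (Mp.pre i Z')),
      f ≫ φ = j ≫ g → (tnMap (𝟙 X) j ≫ Mp.adj (g ≫ Limits.pullback.fst _ _) =
        tnMap i (𝟙 K) ≫ Mp.adj f ∧
        Mp.adj (g ≫ Limits.pullback.fst _ _) ≫ q =
          tnMap i (𝟙 L) ≫ Mp.adj (g ≫ Limits.pullback.snd _ _) ∧
        Mp.adj f ≫ q = tnMap (𝟙 Y) j ≫ Mp.adj (g ≫ Limits.pullback.snd _ _)) := by
    intro K L j _ f g hfg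
    refine ⟨?_, ?_, ?_⟩
    · have := congrArg (fun t => Mp.adj (t ≫ Limits.pullback.fst _ _)) hfg
      simp only [Category.assoc, hφ1] at this
      exact this.symm
    · have := congrArg (fun t => Mp.adj (g ≫ t))
        (Limits.pullback.condition (f := Mp.post X q) (g := Mp.pre i Z'))
      simp only [← Category.assoc] at this
      exact this
    · have := congrArg (fun t => Mp.adj (t ≫ Limits.pullback.snd _ _)) hfg
      simp only [Category.assoc, hφ2] at this
      exact this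
  have h4 : KanFib φ := by
    intro n k
    refine ⟨fun {f g} sq => ?_⟩
    obtain ⟨k1, k2, k3⟩ := key _ f g sq.w
    obtain ⟨l, hl1, hl2, hl3⟩ := exists_rel_ext i hi _
      (PPι_trivCof_of_anodyne D i _ (horn_anodyne n k)) q hq _ _ _ k1 k2 k3
    refine ⟨⟨{ l := Mp.adj.symm l, fac_left := ?_, fac_right := ?_ }⟩⟩
    · apply Mp.adj.injective
      exact (Mp.adj_comp _ (Mp.adj.symm l)).trans
        ((congrArg (tnMap (𝟙 Y) Λ[n + 1, k].ι ≫ ·) (Mp.adj.apply_symm_apply l)).trans hl2)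
    · apply Limits.pullback.hom_ext
      · rw [Category.assoc, hφ1]
        apply Mp.adj.injective
        exact (Mp.adj_pre i (Mp.adj.symm l)).trans
          ((congrArg (tnMap i (𝟙 _) ≫ ·) (Mp.adj.apply_symm_apply l)).trans hl1)
      · rw [Category.assoc, hφ2]
        apply Mp.adj.injective
        exact (Mp.adj_post q (Mp.adj.symm l)).trans
          ((congrArg (· ≫ q) (Mp.adj.apply_symm_apply l)).trans hl3)
  have h5 : TrivFib φ := trivFib_of_hoEq kYZ kP h4 h3
  have h6 := TrivFib.lift h5 j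
  have hc : Mp.adj.symm u ≫ Mp.post X q = Mp.adj.symm w ≫ Mp.pre i Z' := by
    apply Mp.adj.injective
    refine ((Mp.adj_post q (Mp.adj.symm u)).trans
      ((congrArg (· ≫ q) (Mp.adj.apply_symm_apply u)).trans ?_)).trans
      ((Mp.adj_pre i (Mp.adj.symm w)).trans
      (congrArg (tnMap i (𝟙 _) ≫ ·) (Mp.adj.apply_symm_apply w))).symm
    exact huw
  have sq : CommSq (Mp.adj.symm v) j φ (Limits.pullback.lift _ _ hc) := ⟨by
    apply Limits.pullback.hom_ext
    · rw [Category.assoc, hφ1, Category.assoc, Limits.pullback.lift_fst]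
      apply Mp.adj.injective
      refine ((Mp.adj_pre i (Mp.adj.symm v)).trans
        ((congrArg (tnMap i (𝟙 _) ≫ ·) (Mp.adj.apply_symm_apply v)).trans ?_)).trans
        ((Mp.adj_comp j (Mp.adj.symm u)).trans
        (congrArg (tnMap (𝟙 _) j ≫ ·) (Mp.adj.apply_symm_apply u))).symm
      exact huv.symm
    · rw [Category.assoc, hφ2, Category.assoc, Limits.pullback.lift_snd]
      apply Mp.adj.injective
      refine ((Mp.adj_post q (Mp.adj.symm v)).trans
        ((congrArg (· ≫ q) (Mp.adj.apply_symm_apply v)).trans ?_)).trans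
        ((Mp.adj_comp j (Mp.adj.symm w)).trans
        (congrArg (tnMap (𝟙 _) j ≫ ·) (Mp.adj.apply_symm_apply w))).symm
      exact hvw⟩
  refine ⟨Mp.adj sq.lift, ?_, ?_, ?_⟩
  · refine (Mp.adj_pre i sq.lift).symm.trans ?_
    rw [← hφ1, ← Category.assoc, sq.fac_right, Limits.pullback.lift_fst]
    exact Mp.adj.apply_symm_apply u
  · refine (Mp.adj_comp j sq.lift).symm.trans ?_
    rw [sq.fac_left]
    exact Mp.adj.apply_symm_apply v
  · refine (Mp.adj_post q sq.lift).symm.trans ?_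
    rw [← hφ2, ← Category.assoc, sq.fac_right, Limits.pullback.lift_snd]
    exact Mp.adj.apply_symm_apply w

end

end Pool.Agent.Helper83.FL4
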